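import Mathlib

open Finset Filter Topology

namespace Pool.Agent.H.MP_28bf97_an

/-- the Thue-Morse sequence -/
noncomputable def u (n : ℕ) : ℂ := (-1) ^ (Nat.digits 2 n).sum

lemma u_norm (n : ℕ) : ‖u n‖ = 1 := by simp [u]

lemma u_zero : u 0 = 1 := by simp [u]

lemma u_even (n : ℕ) : u (2 * n) = u n := by
  rcases n.eq_zero_or_pos with rfl | h
  · rfl
  · simp [u, Nat.digits_base_mul one_lt_two h]

lemma u_odd (n : ℕ) : u (2 * n + 1) = -u n := by
  have := Nat.digits_add 2 one_lt_two 1 n one_lt_two (.inl one_ne_zero)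
  rw [u, u, add_comm, this, List.sum_cons, pow_add]
  ring

lemma u_block (k : ℕ) : ∀ m j, j < 2 ^ k → u (2 ^ k * m + j) = u m * u j := by
  induction k with
  | zero => intro m j h; obtain rfl : j = 0 := by omega
            simp [u_zero]
  | succ k ih =>
    intro m j h
    obtain ⟨i, rfl | rfl⟩ := j.even_or_odd'
    · rw [show 2 ^ (k + 1) * m + 2 * i = 2 * (2 ^ k * m + i) by ring, u_even, u_even,
        ih _ _ (by omega)]
    · rw [show 2 ^ (k + 1) * m + (2 * i + 1) = 2 * (2 ^ k * m + i) + 1 by ring, u_odd, u_odd,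
        ih _ _ (by omega)]
      ring

lemma u_rec (k : ℕ) : ∃ g, ∀ s, ∃ n, s < n ∧ n ≤ s + g ∧ ∀ j < k, u (n + j) = u j := by
  refine ⟨2 ^ k * 4, fun s => ?_⟩
  have hp : 0 < 2 ^ k * 2 := by positivity
  obtain ⟨q, h1, h2⟩ : ∃ q, s < 2 ^ k * (2 * q) ∧ 2 ^ k * (2 * q + 1) ≤ s + 2 ^ k * 4 := by
    refine ⟨s / (2 ^ k * 2) + 1, ?_, ?_⟩
    · have := Nat.lt_mul_div_succ s hp
      linarith
    · have := Nat.mul_div_le s (2 ^ k * 2)
      nlinarith
  have key (m) (hm : u m = 1) (j) (hj : j < k) : u (2 ^ k * m + j) = u j := by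
    rw [u_block k m j (hj.trans k.lt_two_pow_self), hm, one_mul]
  rcases neg_one_pow_eq_or ℂ (Nat.digits 2 q).sum with h | h
  · exact ⟨_, h1, by nlinarith, key _ ((u_even q).trans h)⟩
  · exact ⟨_, by nlinarith, h2, key _ ((u_odd q).trans (by rw [u, h, neg_neg]))⟩

lemma step {N : ℕ} {z : ℂ} (hz : ‖z‖ = 1) {G : ℝ}
    (h : ∀ s, ‖∑ j ∈ range N, (z ^ 2) ^ j * u (s + j)‖ ≤ G) (s : ℕ) :
    ‖∑ j ∈ range (2 * N), z ^ j * u (s + j)‖ ≤ ‖1 - z‖ * G + 2 := by
  have ev (s : ℕ) : ‖∑ j ∈ range (2 * N), z ^ j * u (2 * s + j)‖ ≤ ‖1 - z‖ * G := by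
    have : ∀ N, ∑ j ∈ range (2 * N), z ^ j * u (2 * s + j) =
        (1 - z) * ∑ j ∈ range N, (z ^ 2) ^ j * u (s + j) := by
      intro N
      induction N with
      | zero => simp
      | succ N ih =>
        rw [mul_add, mul_one, sum_range_succ, sum_range_succ, sum_range_succ, ih,
          show 2 * s + (2 * N + 1) = 2 * (s + N) + 1 by ring, ← mul_add, u_even, u_odd]
        ring
    rw [this, norm_mul]
    exact mul_le_mul_of_nonneg_left (h s) (norm_nonneg _)
  obtain ⟨i, rfl | rfl⟩ := s.even_or_odd'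
  · linarith [ev i]
  · have e : z * ∑ j ∈ range (2 * N), z ^ j * u (2 * i + 1 + j) =
        ∑ j ∈ range (2 * N), z ^ j * u (2 * i + j) +
          (z ^ (2 * N) * u (2 * i + 2 * N) - u (2 * i)) := by
      have := (sum_range_succ (fun j => z ^ j * u (2 * i + j)) (2 * N)).symm.trans
        (sum_range_succ' _ _)
      simp only [pow_zero, one_mul, add_zero] at this
      rw [← add_sub_assoc, this, add_sub_cancel_right, mul_sum]
      exact sum_congr rfl fun j _ => by rw [show 2 * i + 1 + j = 2 * i + (j + 1) by ring]; ring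
    have e2 := congrArg norm e
    rw [norm_mul, hz, one_mul] at e2
    rw [e2]
    refine (norm_add_le _ _).trans (add_le_add (ev i) ((norm_sub_le _ _).trans ?_))
    simp [hz, u_norm]
    norm_num

lemma bound (K : ℕ) : ∀ z : ℂ, ‖z‖ = 1 → ∀ s,
    ‖∑ j ∈ range (4 ^ K), z ^ j * u (s + j)‖ ≤ 4 * (7 / 2) ^ K - 3 := by
  induction K with
  | zero => intro z _ s; simp [u_norm]; norm_num
  | succ K ih =>
    intro z hz s
    have h1 := step (z := z ^ 2) (by simp [hz]) (ih ((z ^ 2) ^ 2) (by simp [hz]))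
    have h2 := step hz h1 s
    rw [show 4 ^ (K + 1) = 2 * (2 * 4 ^ K) by ring]
    refine h2.trans ?_
    have p := parallelogram_law_with_norm ℝ (1 : ℂ) z
    rw [show 1 - z ^ 2 = (1 - z) * (1 + z) by ring, norm_mul]
    rw [hz, norm_one] at p
    have a0 := norm_nonneg (1 - z)
    have b0 := norm_nonneg (1 + z)
    generalize ‖1 - z‖ = a at *
    generalize ‖1 + z‖ = b at *
    have q : a * (a * b) ≤ 7 / 2 := by
      have : a * a = 4 - b * b := by linarith
      rw [← mul_assoc, this]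
      nlinarith [mul_nonneg b0 (sq_nonneg (b - 6 / 5)), sq_nonneg (b - 6 / 5)]
    have r : a ≤ 2 := by nlinarith
    have t : (1 : ℝ) ≤ (7 / 2) ^ K := one_le_pow₀ (by norm_num)
    have := mul_le_mul_of_nonneg_right q (show 0 ≤ 4 * (7 / 2 : ℝ) ^ K - 3 by linarith)
    rw [pow_succ]
    nlinarith

lemma bilinear {c : ℕ → ℂ} {L M : ℕ} {G : ℝ}
    (h : ∀ z : ℂ, ‖z‖ = 1 → ‖∑ t ∈ range L, z ^ t * c t‖ ≤ G) {a b : Fin M → ℕ}
    (ha : a.Injective) (hb : b.Injective) (h1 : ∀ i j, b j ≤ a i) (h2 : ∀ i, a i < L) :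
    ‖∑ i, ∑ j, c (a i - b j)‖ ≤ G * M := by
  rcases M.eq_zero_or_pos with rfl | hM
  · simp
  have hL : 0 < L := (Nat.zero_le _).trans_lt (h2 ⟨0, hM⟩)
  obtain ⟨ζ, hζ⟩ : ∃ ζ : ℂ, IsPrimitiveRoot ζ (2 * L) := ⟨_, Complex.isPrimitiveRoot_exp _ (by omega)⟩
  have n1 : ‖ζ‖ = 1 := hζ.norm'_eq_one (by omega)
  have orth (x y) (hx : x < 2 * L) (hy : y < 2 * L) :
      ∑ r ∈ range (2 * L), (ζ ^ r) ^ x * starRingEnd ℂ ((ζ ^ r) ^ y) =
        if x = y then (2 * L : ℂ) else 0 := by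
    have c1 (y : ℕ) : ζ ^ y * starRingEnd ℂ (ζ ^ y) = 1 := by
      rw [Complex.mul_conj']; simp [n1]
    have : ∀ r, (ζ ^ r) ^ x * starRingEnd ℂ ((ζ ^ r) ^ y) = (ζ ^ x * starRingEnd ℂ (ζ ^ y)) ^ r :=
      fun r => by simp only [map_pow]; ring
    simp only [this]
    split_ifs with e
    · simp [e, c1, -map_pow]
    · have w1 : ζ ^ x * starRingEnd ℂ (ζ ^ y) ≠ 1 := fun k => e (hζ.pow_inj hx hy (by
        linear_combination (ζ ^ y) * k - ζ ^ x * c1 y))
      rw [geom_sum_eq w1, ← this, hζ.pow_eq_one]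
      simp
  have pars {a : Fin M → ℕ} (ha : a.Injective) (h2 : ∀ i, a i < L) :
      ∑ r ∈ range (2 * L), ‖∑ i, (ζ ^ r) ^ a i‖ ^ 2 = 2 * L * M := by
    have : ((∑ r ∈ range (2 * L), ‖∑ i, (ζ ^ r) ^ a i‖ ^ 2 : ℝ) : ℂ) = 2 * L * M := by
      push_cast
      simp only [← Complex.mul_conj', map_sum, sum_mul_sum]
      rw [sum_comm]
      refine (sum_congr rfl fun i _ => sum_comm.trans (sum_congr rfl fun j _ =>
        orth _ _ (by linarith [h2 i]) (by linarith [h2 j]))).trans ?_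
      simp [ha.eq_iff, mul_comm]
    exact_mod_cast this
  have hb2 (j) : b j < L := (h1 ⟨0, hM⟩ j).trans_lt (h2 _)
  have main : (2 * L : ℂ) * ∑ i, ∑ j, c (a i - b j) = ∑ r ∈ range (2 * L),
      (∑ t ∈ range L, (ζ ^ r) ^ t * c t) *
        ((∑ j, (ζ ^ r) ^ b j) * starRingEnd ℂ (∑ i, (ζ ^ r) ^ a i)) := by
    simp only [map_sum, mul_sum, sum_mul]
    symm
    refine sum_comm.trans (sum_congr rfl fun i _ => sum_comm.trans (sum_congr rfl fun j _ =>
      sum_comm.trans ?_))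
    rw [sum_eq_single (a i - b j)]
    · have := orth (a i - b j + b j) (a i) (by have := h2 i; have := h1 i j; omega)
        (by linarith [h2 i])
      rw [if_pos (Nat.sub_add_cancel (h1 i j))] at this
      rw [← this, sum_mul]
      exact sum_congr rfl fun r _ => by ring
    · intro t ht ne
      have := orth (t + b j) (a i) (by have := mem_range.1 ht; have := hb2 j; omega)
        (by linarith [h2 i])
      rw [if_neg (by omega)] at this
      rw [← zero_mul (c t), ← this, sum_mul]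
      exact sum_congr rfl fun r _ => by ring
    · exact fun k => absurd (mem_range.2 (by have := h2 i; omega)) k
  have G0 : 0 ≤ G := (norm_nonneg _).trans (h 1 norm_one)
  have fin := (congrArg norm main).le.trans ((norm_sum_le _ _).trans (sum_le_sum
    (g := fun r => G / 2 * (‖∑ j, (ζ ^ r) ^ b j‖ ^ 2 + ‖∑ i, (ζ ^ r) ^ a i‖ ^ 2)) fun r _ => by
      rw [norm_mul, norm_mul, RCLike.norm_conj]
      refine (mul_le_mul_of_nonneg_right (h _ (by simp [n1])) (by positivity)).trans ?_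
      nlinarith [mul_nonneg G0 (sq_nonneg (‖∑ j, (ζ ^ r) ^ b j‖ - ‖∑ i, (ζ ^ r) ^ a i‖))]))
  rw [← mul_sum, sum_add_distrib, pars ha h2, pars hb hb2, norm_mul] at fin
  have : (0 : ℝ) < L := by exact_mod_cast hL
  simp only [norm_mul, Complex.norm_ofNat, Complex.norm_natCast] at fin
  nlinarith

end Pool.Agent.H.MP_28bf97_an
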