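import Mathlib

open Finset Filter Topology NormedSpace

namespace Pool.Agent.H.MP_28bf97_an

variable {X : Type} [NormedAddCommGroup X] [NormedSpace ℂ X]

def Refl (X : Type) [NormedAddCommGroup X] [NormedSpace ℂ X] : Prop :=
  ∀ Φ : StrongDual ℂ (StrongDual ℂ X), ∃ x, ∀ φ, Φ φ = φ x

lemma Refl.surj (h : Refl X) : Function.Surjective (inclusionInDoubleDual ℂ X) := fun Φ =>
  (h Φ).imp fun _ e => ContinuousLinearMap.ext fun φ => (e φ).symm

lemma Refl.dual (h : Refl X) : Refl (StrongDual ℂ X) := fun Ψ =>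
  ⟨Ψ.comp (inclusionInDoubleDual ℂ X), fun Φ => by
    obtain ⟨x, rfl⟩ := h.surj Φ
    rfl⟩

lemma refl_fin [FiniteDimensional ℂ X] : Refl X := fun Φ => by
  obtain ⟨x, hx⟩ := (Module.bijective_dual_eval ℂ X).2
    (Φ.toLinearMap ∘ₗ LinearMap.toContinuousLinearMap.toLinearMap)
  exact ⟨x, fun φ => (LinearMap.congr_fun hx φ.toLinearMap).symm⟩

lemma Refl.sub (h : Refl X) (M : Submodule ℂ X) (hM : IsClosed (M : Set X)) : Refl M := by
  intro Φ
  obtain ⟨x, hx⟩ := h (Φ.comp ((ContinuousLinearMap.compL ℂ M X ℂ).flip M.subtypeL))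
  have mem : x ∈ M := by
    rw [← Submodule.Quotient.mk_eq_zero]
    refine SeparatingDual.eq_zero_of_forall_dual_eq_zero (R := ℂ) fun f => ?_
    have := hx (f.comp M.mkQL)
    rw [ContinuousLinearMap.comp_apply, show (ContinuousLinearMap.compL ℂ M X ℂ).flip M.subtypeL
      (f.comp M.mkQL) = 0 from ContinuousLinearMap.ext fun y => by
        simp [(Submodule.Quotient.mk_eq_zero M).2 y.2], map_zero] at this
    exact this.symm
  refine ⟨⟨x, mem⟩, fun φ => ?_⟩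
  obtain ⟨g, hg, -⟩ := exists_extension_norm_eq M φ
  rw [← hg, ← hx]
  exact congrArg Φ (ContinuousLinearMap.ext fun y => (hg y).symm)

variable {V : ℕ → Type} [∀ k, NormedAddCommGroup (V k)] [∀ k, NormedSpace ℂ (V k)]

omit [∀ k, NormedSpace ℂ (V k)] in
lemma nsq (x : lp V 2) : HasSum (fun k => ‖x k‖ ^ 2) (‖x‖ ^ 2) := by
  simpa using lp.hasSum_norm (p := 2) (by simp) x

omit [∀ k, NormedSpace ℂ (V k)] in
lemma nsq_sum (v : ∀ k, V k) (s : Finset ℕ) :
    ‖∑ k ∈ s, lp.single 2 k (v k)‖ ^ 2 = ∑ k ∈ s, ‖v k‖ ^ 2 := by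
  simpa using lp.norm_sum_single (p := 2) (by simp) v s

omit [∀ k, NormedSpace ℂ (V k)] in
lemma mem2 {v : ∀ k, V k} {C : ℝ} (h : ∀ s : Finset ℕ, ∑ k ∈ s, ‖v k‖ ^ 2 ≤ C) : Memℓp v 2 :=
  memℓp_gen' (C := C) fun s => by simpa using h s

noncomputable def Qn (V : ℕ → Type) [∀ k, NormedAddCommGroup (V k)] [∀ k, NormedSpace ℂ (V k)]
    (s : Finset ℕ) : lp V 2 →L[ℂ] lp V 2 :=
  ∑ k ∈ s, (lp.singleContinuousLinearMap ℂ V 2 k).comp (lp.evalCLM ℂ V 2 k)

lemma Qn_apply (s : Finset ℕ) (x : lp V 2) : Qn V s x = ∑ k ∈ s, lp.single 2 k (x k) := by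
  simp only [Qn, FunLike.coe_sum, Finset.sum_apply]
  rfl

lemma shrink (φ : StrongDual ℂ (lp V 2)) : Tendsto (fun s => φ.comp (Qn V s)) atTop (𝓝 φ) := by
  let a := fun k => ‖φ.comp (lp.singleContinuousLinearMap ℂ V 2 k)‖
  have a0 (k) : 0 ≤ a k := norm_nonneg _
  have ex (k) : ∃ v : V k, ‖v‖ ≤ a k ∧ φ (lp.single 2 k v) = (a k ^ 2 / 2 : ℝ) := by
    rcases (a0 k).eq_or_lt with e | e
    · exact ⟨0, by simp [a0], by simp [← e]⟩
    obtain ⟨v, h1, h2⟩ := (φ.comp (lp.singleContinuousLinearMap ℂ V 2 k)).exists_lt_apply_of_lt_opNorm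
      (half_lt_self e)
    change a k / 2 < ‖φ (lp.single 2 k v)‖ at h2
    have h3 : 0 < ‖φ (lp.single 2 k v)‖ := (half_pos e).trans h2
    refine ⟨(((a k ^ 2 / 2 : ℝ) : ℂ) / φ (lp.single 2 k v)) • v, ?_, ?_⟩
    · rw [norm_smul, norm_div, Complex.norm_real, Real.norm_of_nonneg (by positivity),
        div_mul_eq_mul_div, div_le_iff₀ h3]
      nlinarith [norm_nonneg v, mul_pos e e]
    · rw [lp.single_smul, map_smul, smul_eq_mul, div_mul_cancel₀ _ (norm_pos_iff.1 h3)]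
  choose v h1 h2 using ex
  have sm : Summable fun k => a k ^ 2 := summable_of_sum_le (c := 4 * ‖φ‖ ^ 2)
    (fun k => sq_nonneg _) fun s => by
      have e1 := φ.le_opNorm (∑ k ∈ s, lp.single 2 k (v k))
      have e2 := (nsq_sum v s).le.trans (sum_le_sum (g := fun k => a k ^ 2) fun k _ => by
        gcongr; exact h1 k)
      rw [map_sum, sum_congr rfl fun k _ => h2 k, ← Complex.ofReal_sum, Complex.norm_real,
        ← sum_div, Real.norm_of_nonneg (by positivity)] at e1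
      generalize ‖∑ k ∈ s, lp.single 2 k (v k)‖ = t at *
      nlinarith [sq_nonneg (t - 2 * ‖φ‖)]
  rw [tendsto_iff_norm_sub_tendsto_zero]
  have lim := (tendsto_tsum_compl_atTop_zero fun k => a k ^ 2).sqrt
  rw [Real.sqrt_zero] at lim
  refine squeeze_zero (fun _ => norm_nonneg _) (fun s => ?_) lim
  rw [norm_sub_rev]
  refine ContinuousLinearMap.opNorm_le_bound _ (Real.sqrt_nonneg _) fun x => ?_
  have hs := ((lp.hasSum_single (p := 2) (by simp) x).mapL φ)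
  have hs2 : HasSum (fun k : {k // k ∉ s} => φ (lp.single 2 k.1 (x k))) ((φ - φ.comp (Qn V s)) x) := by
    refine (s.hasSum_compl_iff (f := fun k => φ (lp.single 2 k (x k)))).2 ?_
    simpa [Qn_apply] using hs
  refine le_of_tendsto' hs2.norm fun t => (norm_sum_le _ _).trans ?_
  refine (sum_le_sum (g := fun k : {k // k ∉ s} => a k * ‖x k‖) fun k _ =>
    (φ.comp (lp.singleContinuousLinearMap ℂ V 2 k.1)).le_opNorm _).trans ?_
  refine (Real.sum_mul_le_sqrt_mul_sqrt _ _ _).trans (mul_le_mul (Real.sqrt_le_sqrt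
    ((sm.subtype _).sum_le_tsum t fun _ _ => sq_nonneg _)) ?_ (Real.sqrt_nonneg _) (Real.sqrt_nonneg _))
  rw [Real.sqrt_le_left (norm_nonneg _)]
  exact (sum_map t ⟨Subtype.val, Subtype.val_injective⟩ fun k => ‖x k‖ ^ 2).symm.le.trans
    (sum_le_hasSum _ (fun _ _ => sq_nonneg _) (nsq x))

lemma refl_lp (h : ∀ k, Refl (V k)) : Refl (lp V 2) := by
  intro Φ
  choose v hv using fun k => h k
    (Φ.comp ((ContinuousLinearMap.compL ℂ (lp V 2) (V k) ℂ).flip (lp.evalCLM ℂ V 2 k)))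
  have key (φ : StrongDual ℂ (lp V 2)) (s : Finset ℕ) :
      Φ (φ.comp (Qn V s)) = φ (∑ k ∈ s, lp.single 2 k (v k)) := by
    rw [Qn, ContinuousLinearMap.comp_finsetSum, map_sum, map_sum]
    exact sum_congr rfl fun k _ => hv k (φ.comp (lp.singleContinuousLinearMap ℂ V 2 k))
  have mem : Memℓp v 2 := mem2 (C := ‖Φ‖ ^ 2) fun s => by
    obtain ⟨φ, h1, h2⟩ := exists_dual_vector'' ℂ (∑ k ∈ s, lp.single 2 k (v k))
    rw [← nsq_sum]
    have := Φ.le_opNorm (φ.comp (Qn V s))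
    rw [key, h2] at this
    have h3 : ‖φ.comp (Qn V s)‖ ≤ 1 := ContinuousLinearMap.opNorm_le_bound _ zero_le_one fun x =>
      (φ.le_of_opNorm_le h1 _).trans (by
        rw [one_mul, one_mul, ← sq_le_sq₀ (norm_nonneg _) (norm_nonneg _)]
        refine ((congrArg (‖·‖ ^ 2) (Qn_apply s x)).trans (nsq_sum _ _)).le.trans ?_
        exact sum_le_hasSum _ (fun _ _ => sq_nonneg _) (nsq x))
    gcongr
    simpa using this.trans (mul_le_of_le_one_right (norm_nonneg _) h3)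
  refine ⟨⟨v, mem⟩, fun φ => tendsto_nhds_unique ((Φ.continuous.tendsto _).comp (shrink φ)) ?_⟩
  simp only [Function.comp_def, key]
  exact (φ.continuous.tendsto _).comp (lp.hasSum_single (p := 2) (by simp) (⟨v, mem⟩ : lp V 2))

lemma delta_diff (T : X →L[ℂ] X) (x : X)
    (h : ∀ ε > 0, ∀ B : Set ℕ, B.Infinite → ∃ a ∈ B, ∃ b ∈ B, a < b ∧ ‖(T ^ (b - a)) x - x‖ < ε)
    {ε : ℝ} (hε : 0 < ε) : ∃ δ > 0, ∀ n m, m < n → ‖(T ^ n) x - x‖ < δ → ‖(T ^ m) x - x‖ < δ →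
      ‖(T ^ (n - m)) x - x‖ < ε := by
  by_contra! k
  have C1 : 1 ≤ ‖T‖ + 1 := by linarith [norm_nonneg T]
  choose n m h1 h2 h3 h4 using fun i s : ℕ => k (ε / 4 / 2 ^ i / (‖T‖ + 1) ^ s) (by positivity)
  let s : ℕ → ℕ := fun i => i.rec 0 fun i s => s + n i s
  have hs (i) : s (i + 1) = s i + n i (s i) := rfl
  have est (d i r) (hd : d ≤ s i) (hr : ‖(T ^ r) x - x‖ < ε / 4 / 2 ^ i / (‖T‖ + 1) ^ s i) :
      ‖(T ^ (d + r)) x - (T ^ d) x‖ ≤ ε / 4 / 2 ^ i := by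
    rw [pow_add, mul_apply_eq_comp, ← map_sub]
    refine ((T ^ d).le_opNorm _).trans ?_
    rw [lt_div_iff₀ (by positivity)] at hr
    rw [mul_comm]
    refine (mul_le_mul_of_nonneg_left ?_ (norm_nonneg _)).trans hr.le
    refine le_trans ?_ (pow_le_pow_right₀ C1 hd)
    rcases d.eq_zero_or_pos with rfl | hd
    · rw [pow_zero, pow_zero]; exact ContinuousLinearMap.norm_id_le
    · exact (norm_pow_le' _ hd).trans (by gcongr; linarith)
  have mono : StrictMono fun i => s i + m i (s i) := strictMono_nat_of_lt_succ fun i => by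
    have := h1 i (s i)
    rw [hs]; omega
  obtain ⟨_, ⟨i, rfl⟩, _, ⟨j, rfl⟩, lt, hh⟩ := h (ε / 2) (by positivity) _
    (Set.infinite_range_of_injective mono.injective)
  have ind (l) (hl : i + 1 ≤ l) : s i + m i (s i) ≤ s l ∧
      ‖(T ^ (s l - (s i + m i (s i)))) x - (T ^ (n i (s i) - m i (s i))) x‖ ≤
        ε / 4 / 2 ^ i - ε / 2 / 2 ^ l := by
    induction l, hl using Nat.le_induction with
    | base =>
      have := h1 i (s i)
      rw [hs, Nat.add_sub_add_left, sub_self, norm_zero, pow_succ]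
      exact ⟨by omega, le_of_eq (by field_simp; ring)⟩
    | succ l _ ih =>
      refine ⟨by rw [hs]; omega, ?_⟩
      have := est (s l - (s i + m i (s i))) l _ (Nat.sub_le _ _) (h2 l (s l))
      rw [hs, Nat.sub_add_comm ih.1]
      refine (norm_sub_le_norm_sub_add_norm_sub _ _ _).trans ((add_le_add this ih.2).trans
        (le_of_eq ?_))
      rw [pow_succ]; field_simp; ring
  obtain ⟨i1, i2⟩ := ind j (mono.lt_iff_lt.1 lt)
  have := est (s j - (s i + m i (s i))) j _ (Nat.sub_le _ _) (h3 j (s j))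
  simp only [Nat.sub_add_comm i1] at hh
  have t1 := norm_sub_le_norm_sub_add_norm_sub ((T ^ (n i (s i) - m i (s i))) x)
    ((T ^ (s j - (s i + m i (s i)))) x) x
  have t2 := norm_sub_le_norm_sub_add_norm_sub ((T ^ (s j - (s i + m i (s i)))) x)
    ((T ^ (s j - (s i + m i (s i)) + m j (s j))) x) x
  rw [norm_sub_rev] at i2 this
  have t3 : ε / 4 / 2 ^ i ≤ ε / 4 := div_le_self (by positivity) (one_le_pow₀ one_le_two)
  have t4 : ε / 4 / 2 ^ j ≤ ε / 2 / 2 ^ j := by gcongr; norm_num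
  linarith [h4 i (s i)]

lemma delta_synd {R : Set ℕ} (h : ∀ B : Set ℕ, B.Infinite → ∃ a ∈ B, ∃ b ∈ B, a < b ∧ b - a ∈ R) :
    ∃ g, ∀ s, ∃ n ∈ R, s ≤ n ∧ n < s + g := by
  by_contra! k
  choose f hf using k
  let b : ℕ → ℕ := fun i => i.rec 0 fun _ b => f (b + 2) + b + 1
  have hb (i) : b (i + 1) = f (b i + 2) + b i + 1 := rfl
  have mono : StrictMono b := strictMono_nat_of_lt_succ fun i => by rw [hb]; omega
  obtain ⟨_, ⟨i, rfl⟩, _, ⟨j, rfl⟩, lt, hh⟩ := h _ (Set.infinite_range_of_injective mono.injective)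
  obtain ⟨l, rfl⟩ := Nat.exists_eq_add_of_lt (mono.lt_iff_lt.1 lt)
  have := mono.monotone (Nat.le_add_right i l)
  have := hf _ _ hh (show f (b (i + l) + 2) ≤ _ by rw [hb]; omega)
  rw [hb] at this
  omega

end Pool.Agent.H.MP_28bf97_an
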