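import Pool.Agent.H.MP_28bf97_an.A
import Pool.Agent.H.MP_28bf97_an.B

open Finset Filter Topology BoundedContinuousFunction

namespace Pool.Agent.H.MP_28bf97_an

noncomputable def E (j : ℕ) : ℕ →ᵇ ℂ :=
  ofNormedAddCommGroupDiscrete (fun n => u (n + j)) 1 fun _ => (u_norm _).le

noncomputable def Sh : (ℕ →ᵇ ℂ) →L[ℂ] (ℕ →ᵇ ℂ) :=
  compContinuousCLM ℂ ℂ ⟨Nat.succ, continuous_of_discreteTopology⟩

lemma Sh_E (j : ℕ) : Sh (E j) = E (j + 1) :=
  BoundedContinuousFunction.ext fun n => congrArg u (by simp only [ContinuousMap.coe_mk]; omega)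

noncomputable def G (K : ℕ) : Submodule ℂ (ℕ →ᵇ ℂ) := Submodule.span ℂ (E '' Set.Iio (4 ^ K))

instance (K : ℕ) : FiniteDimensional ℂ (G K) :=
  FiniteDimensional.span_of_finite ℂ ((Set.finite_Iio _).image _)

lemma E_mem {j K : ℕ} (h : j < 4 ^ K) : E j ∈ G K := Submodule.subset_span ⟨j, h, rfl⟩

lemma G_ext {K : ℕ} {φ ψ : G K →L[ℂ] ℂ} (h : ∀ j (hj : j < 4 ^ K), φ ⟨E j, E_mem hj⟩ = ψ ⟨E j, E_mem hj⟩) :
    φ = ψ := by
  refine ContinuousLinearMap.coe_injective (Submodule.linearMap_eq_iff_of_eq_span _ _ rfl |>.2 ?_)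
  rintro ⟨_, j, hj, rfl⟩
  exact h j hj

noncomputable def S (K : ℕ) : G K →L[ℂ] G (K + 1) :=
  (Sh.comp (G K).subtypeL).codRestrict _ fun f => by
    refine (Submodule.span_le (p := (G (K + 1)).comap Sh.toLinearMap)).2 ?_ f.2
    rintro _ ⟨j, hj, rfl⟩
    change Sh (E j) ∈ G (K + 1)
    have : j < 4 ^ K := hj
    rw [Sh_E]
    exact E_mem (by omega)

lemma S_norm (K : ℕ) : ‖S K‖ ≤ 1 := ContinuousLinearMap.opNorm_le_bound _ zero_le_one fun f =>
  (one_mul ‖f‖).symm ▸ norm_compContinuous_le f.1 _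

def V (K : ℕ) : Type := G K →L[ℂ] ℂ
noncomputable instance (K : ℕ) : NormedAddCommGroup (V K) :=
  inferInstanceAs (NormedAddCommGroup (G K →L[ℂ] ℂ))
noncomputable instance (K : ℕ) : NormedSpace ℂ (V K) := inferInstanceAs (NormedSpace ℂ (G K →L[ℂ] ℂ))
instance (K : ℕ) : FiniteDimensional ℂ (V K) := inferInstanceAs (FiniteDimensional ℂ (G K →L[ℂ] ℂ))
instance (K : ℕ) : CompleteSpace (V K) := inferInstanceAs (CompleteSpace (G K →L[ℂ] ℂ))

noncomputable def P (K : ℕ) : V (K + 1) →L[ℂ] V K :=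
  (10 / 9 : ℂ) • (ContinuousLinearMap.compL ℂ (G K) (G (K + 1)) ℂ).flip (S K)

lemma P_le (K : ℕ) (m : V (K + 1)) : ‖P K m‖ ≤ 10 / 9 * ‖m‖ := by
  refine (ContinuousLinearMap.opNorm_smul_le (10 / 9 : ℂ)
    (ContinuousLinearMap.comp (M₂ := G (K + 1)) m (S K))).trans (mul_le_mul
    (by simp) ((ContinuousLinearMap.opNorm_comp_le _ _).trans
      (mul_le_of_le_one_right (norm_nonneg _) (S_norm K))) (norm_nonneg _) (by norm_num))

noncomputable def ev {K : ℕ} (f : G K) : V K →L[ℂ] ℂ := ContinuousLinearMap.apply ℂ ℂ f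

noncomputable def d (n K : ℕ) : V K := ((9 / 10 : ℂ) ^ K) • (evalCLM ℂ n).comp (G K).subtypeL

lemma d_le (n K : ℕ) : ‖d n K‖ ≤ (9 / 10) ^ K :=
  ContinuousLinearMap.opNorm_le_bound _ (by positivity) fun f => by
    refine (norm_mul_le ((9 / 10 : ℂ) ^ K) (f.1 n)).trans (mul_le_mul (by simp)
      (f.1.norm_coe_le_norm n) (norm_nonneg _) (by positivity))

lemma P_d (n K : ℕ) : P K (d n (K + 1)) = d (n + 1) K := ContinuousLinearMap.ext fun f => by
  change (10 / 9 : ℂ) * ((9 / 10) ^ (K + 1) * f.1 (n + 1)) = (9 / 10) ^ K * f.1 (n + 1)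
  ring

lemma P_sum (m : lp V 2) (s : Finset ℕ) : ∑ k ∈ s, ‖P k (m (k + 1))‖ ^ 2 ≤ (10 / 9 * ‖m‖) ^ 2 := by
  refine (sum_le_sum (g := fun k => (10 / 9) ^ 2 * ‖m (k + 1)‖ ^ 2) fun k _ => ?_).trans ?_
  · rw [← mul_pow]; gcongr; exact P_le k _
  · rw [← mul_sum, mul_pow]
    gcongr
    exact (sum_map s ⟨Nat.succ, Nat.succ_injective⟩ fun k => ‖m k‖ ^ 2).symm.le.trans
      (sum_le_hasSum _ (fun _ _ => sq_nonneg _) (nsq m))

noncomputable def T : lp V 2 →L[ℂ] lp V 2 := LinearMap.mkContinuous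
  { toFun := fun m => ⟨fun k => P k (m (k + 1)), mem2 (P_sum m)⟩
    map_add' := fun a b => lp.ext (funext fun k => map_add (P k) (a (k + 1)) (b (k + 1)))
    map_smul' := fun c a => lp.ext (funext fun k => map_smul (P k) c (a (k + 1))) } (10 / 9)
  fun m => by
    rw [← sq_le_sq₀ (norm_nonneg _) (by positivity)]
    exact hasSum_le_of_sum_le (nsq _) (P_sum m)

lemma geo : Summable fun k : ℕ => ((9 / 10 : ℝ) ^ k) ^ 2 := by
  refine (summable_geometric_of_lt_one (r := (9 / 10) ^ 2) (by norm_num) (by norm_num)).congr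
    fun k => pow_right_comm _ _ _

noncomputable def x (n : ℕ) : lp V 2 := ⟨d n, mem2 fun s =>
  (sum_le_sum fun k _ => pow_le_pow_left₀ (norm_nonneg _) (d_le n k) 2).trans
    (geo.sum_le_tsum s fun _ _ => sq_nonneg _)⟩

lemma T_x (n : ℕ) : T (x n) = x (n + 1) := lp.ext (funext (P_d n))

lemma Tp_x (j n : ℕ) : (T ^ j) (x n) = x (n + j) := by
  induction j with
  | zero => rfl
  | succ j ih => rw [pow_succ', mul_apply_eq_comp, ih, T_x, add_assoc]

noncomputable def e {j K : ℕ} (h : j < 4 ^ K) : lp V 2 →L[ℂ] ℂ :=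
  (ev ⟨E j, E_mem h⟩).comp (lp.evalCLM ℂ V 2 K)

lemma z4 : 0 < 4 ^ 0 := Nat.one_pos

lemma e_x {j K : ℕ} (h : j < 4 ^ K) (n : ℕ) : e h (x n) = (9 / 10) ^ K * u (n + j) := rfl

lemma x_close {ε : ℝ} (hε : 0 < ε) : ∃ k, ∀ n, (∀ j < k, u (n + j) = u j) → ‖x n - x 0‖ < ε := by
  have lim := (tendsto_sum_nat_add fun k : ℕ => ((9 / 10 : ℝ) ^ k) ^ 2).const_mul 4
  obtain ⟨K, hK⟩ := (lim.eventually (gt_mem_nhds (show 4 * 0 < ε ^ 2 by simpa using sq_pos_of_pos hε))).exists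
  refine ⟨4 ^ K, fun n hn => ?_⟩
  rw [← sq_lt_sq₀ (norm_nonneg _) hε.le]
  refine lt_of_le_of_lt ?_ hK
  have h0 : ∑ k ∈ range K, ‖(x n - x 0) k‖ ^ 2 = 0 := sum_eq_zero fun k hk => by
    have : d n k = d 0 k := G_ext fun j hj => by
      change _ * u (n + j) = _ * u (0 + j)
      rw [zero_add, hn j (hj.trans (Nat.pow_lt_pow_right (by norm_num) (mem_range.1 hk)))]
    rw [show (x n - x 0) k = d n k - d 0 k from rfl, this, sub_self, norm_zero, zero_pow two_ne_zero]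
  rw [← (nsq _).tsum_eq, ← (nsq (x n - x 0)).summable.sum_add_tsum_nat_add K, h0, zero_add,
    ← tsum_mul_left]
  refine Summable.tsum_le_tsum (fun k => ?_) ((summable_nat_add_iff K).2 (nsq _).summable)
    (((summable_nat_add_iff K).2 geo).mul_left _)
  have := (norm_sub_le (d n (k + K)) (d 0 (k + K))).trans (add_le_add (d_le _ _) (d_le _ _))
  refine (pow_le_pow_left₀ (norm_nonneg _) this 2).trans (le_of_eq (by ring))

noncomputable def X0 : Submodule ℂ (lp V 2) := (Submodule.span ℂ (Set.range x)).topologicalClosure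

lemma X0_le {M : Submodule ℂ (lp V 2)} (hM : IsClosed (M : Set (lp V 2))) (h : ∀ n, x n ∈ M) :
    X0 ≤ M := Submodule.topologicalClosure_minimal _
  (Submodule.span_le.2 (Set.range_subset_iff.2 h)) hM

lemma x_mem (n : ℕ) : x n ∈ X0 :=
  Submodule.le_topologicalClosure _ (Submodule.subset_span ⟨n, rfl⟩)

lemma X0_closed : IsClosed (X0 : Set (lp V 2)) := Submodule.isClosed_topologicalClosure _

lemma e_T {j K : ℕ} (h : j < 4 ^ K) {m} (hm : m ∈ X0) :
    (9 / 10 : ℂ) ^ K * e z4 ((T ^ j) m) = e h m := by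
  have := X0_le (M := LinearMap.eqLocus
    (((9 / 10 : ℂ) ^ K • (e z4).comp (T ^ j)).toLinearMap) (e h).toLinearMap)
    (isClosed_eq (ContinuousLinearMap.continuous _) (ContinuousLinearMap.continuous _))
    (fun n => by
      change _ * e z4 ((T ^ j) (x n)) = e h (x n)
      rw [Tp_x, e_x, e_x, pow_zero, one_mul, add_zero]) hm
  exact this

theorem package : ∃ (X : Type) (_ : NormedAddCommGroup X) (_ : NormedSpace ℂ X)
    (_ : CompleteSpace X) (T : X →L[ℂ] X) (x : ℕ → X) (e : X →L[ℂ] ℂ), Refl X ∧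
    Dense (Submodule.span ℂ (Set.range x) : Set X) ∧ (∀ n, T (x n) = x (n + 1)) ∧ e (x 0) = 1 ∧
    (∀ ε > 0, ∃ k, ∀ n, (∀ j < k, u (n + j) = u j) → ‖x n - x 0‖ < ε) ∧
    (∀ m, (∀ j, e ((T ^ j) m) = 0) → m = 0) ∧
    ∀ (ι : Type) (s : Finset ι) (c : ι → ℂ) (t : ι → ℕ) (K : ℕ) (C : ℝ) (m : X),
      (∀ i, t i < 4 ^ K) → (∀ n, ‖∑ i ∈ s, c i * u (n + t i)‖ ≤ C) →
      (9 / 10) ^ K * ‖∑ i ∈ s, c i * e ((T ^ t i) m)‖ ≤ ‖m‖ * C := by
  have inv : ∀ m : X0, T m.1 ∈ X0 := fun m => X0_le (M := X0.comap T.toLinearMap)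
    (X0_closed.preimage T.continuous) (fun n => show T (x n) ∈ X0 from (T_x n).symm ▸ x_mem (n + 1)) m.2
  let T0 : X0 →L[ℂ] X0 := (T.comp X0.subtypeL).codRestrict _ inv
  have hT (j : ℕ) (m : X0) : ((T0 ^ j) m).1 = (T ^ j) m.1 := by
    induction j with
    | zero => rfl
    | succ j ih => rw [pow_succ', pow_succ', mul_apply_eq_comp, mul_apply_eq_comp, ← ih]; rfl
  refine ⟨X0, inferInstance, inferInstance, X0_closed.completeSpace_coe, T0,
    fun n => ⟨x n, x_mem n⟩, (e z4).comp X0.subtypeL,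
    (refl_lp fun k => refl_fin).sub _ X0_closed, ?_, fun n => Subtype.ext (T_x n),
    (e_x z4 0).trans (by simp [u_zero]), fun ε hε => x_close hε, fun m hm => ?_,
    fun ι s c t K C m h1 h2 => ?_⟩
  · refine Subtype.dense_iff.2 (closure_mono ?_)
    rw [← Submodule.coe_subtype, ← Submodule.map_coe, Submodule.map_span, ← Set.range_comp]
    rfl
  · refine Subtype.ext (lp.ext (funext fun K => G_ext fun j hj => ?_))
    have := e_T hj m.2
    rw [← hT, show e z4 ((T0 ^ j) m).1 = 0 from hm j, mul_zero] at this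
    exact this.symm
  · have C0 := (norm_nonneg _).trans (h2 0)
    have e1 : (9 / 10 : ℂ) ^ K * ∑ i ∈ s, c i * e z4 ((T0 ^ t i) m).1 =
        (show G K →L[ℂ] ℂ from m.1 K) (∑ i ∈ s, c i • ⟨E (t i), E_mem (h1 i)⟩) := by
      rw [map_sum, mul_sum]
      exact sum_congr rfl fun i _ => by
        rw [hT, mul_left_comm, e_T (h1 i) m.2, map_smul]; rfl
    have e2 := (congrArg norm e1).le.trans (ContinuousLinearMap.le_opNorm _ _)
    rw [norm_mul, norm_pow, show ‖(9 / 10 : ℂ)‖ = 9 / 10 by simp] at e2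
    refine e2.trans (mul_le_mul (lp.norm_apply_le_norm two_ne_zero m.1 K) ?_ (norm_nonneg _)
      (norm_nonneg _))
    refine (BoundedContinuousFunction.norm_le C0).2 fun n => le_trans (le_of_eq ?_) (h2 n)
    simp [E]

end Pool.Agent.H.MP_28bf97_an
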