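import Pool.Agent.H.MP_28bf97_an.C

open Finset Filter Topology

namespace Pool.Agent.H.MP_28bf97_an

lemma small {a C : ℝ} (ha : 0 ≤ a) (h : ∀ K : ℕ, (9 / 10) ^ K * (4 ^ K * a) ≤ C * (7 / 2) ^ K) :
    a = 0 := by
  refine ha.antisymm' (ge_of_tendsto' (by
    simpa using (tendsto_pow_atTop_nhds_zero_of_lt_one (r := (35 / 36 : ℝ)) (by norm_num)
      (by norm_num)).const_mul C) fun K => ?_)
  have e : (7 / 2 : ℝ) ^ K = (35 / 36) ^ K * ((9 / 10) ^ K * 4 ^ K) := by
    rw [← mul_pow, ← mul_pow]; norm_num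
  refine le_of_mul_le_mul_right ?_ (show (0 : ℝ) < (9 / 10) ^ K * 4 ^ K by positivity)
  have := h K
  rw [e] at this
  linarith

theorem main : ∃ (X : Type) (_ : NormedAddCommGroup X) (_ : NormedSpace ℂ X)
    (_ : CompleteSpace X) (T : X →L[ℂ] X), Refl X ∧ TopologicalSpace.SeparableSpace X ∧
    Nontrivial X ∧
    Dense {x : X | ∀ U ∈ 𝓝 x, ∃ g : ℕ, ∀ s, ∃ n, s < n ∧ n ≤ s + g ∧ (T ^ n) x ∈ U} ∧
    (∀ (c : ℂ) x, ‖c‖ = 1 → T x = c • x → x = 0) ∧
    ∀ x, (∀ U ∈ 𝓝 x, ∀ B : Set ℕ, B.Infinite → ∃ a ∈ B, ∃ b ∈ B, a < b ∧ (T ^ (b - a)) x ∈ U) →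
      x = 0 := by
  obtain ⟨X, _, _, _, T, x, e, h1, h2, h3, h4, h5, h6, h7⟩ := package
  have hp (j n) : (T ^ j) (x n) = x (n + j) := by
    induction j with
    | zero => rfl
    | succ j ih => rw [pow_succ', mul_apply_eq_comp, ih, h3, add_assoc]
  have comm (j n : ℕ) (y : X) : (T ^ n) ((T ^ j) y) = (T ^ j) ((T ^ n) y) := by
    rw [← mul_apply_eq_comp, pow_mul_comm, mul_apply_eq_comp]
  refine ⟨X, _, _, ‹_›, T, h1, ?_, ⟨x 0, 0, fun k => by simp [k] at h4⟩, h2.mono fun y hy U hU => ?_,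
    fun c y hc hy => ?_, fun y hy => h6 y fun j => ?_⟩
  · exact h2.isSeparable_iff.1 (Set.countable_range x).isSeparable.span
  · obtain ⟨A, hA, rfl⟩ : ∃ A : X →L[ℂ] X, (∀ n, Commute A (T ^ n)) ∧ A (x 0) = y := by
      refine Submodule.span_induction ?_ ⟨0, fun _ => .zero_left _, rfl⟩ ?_ ?_ hy
      · rintro _ ⟨j, rfl⟩
        exact ⟨T ^ j, fun n => .pow_pow_self _ _ _, by rw [hp, zero_add]⟩
      · rintro _ _ - - ⟨A, a, rfl⟩ ⟨B, b, rfl⟩
        exact ⟨A + B, fun n => (a n).add_left (b n), rfl⟩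
      · rintro c _ - ⟨A, a, rfl⟩
        exact ⟨c • A, fun n => (a n).smul_left c, rfl⟩
    obtain ⟨ε, hε, hb⟩ := Metric.mem_nhds_iff.1 (A.continuous.continuousAt hU)
    obtain ⟨k, hk⟩ := h5 ε hε
    obtain ⟨g, hg⟩ := u_rec k
    refine ⟨g, fun s => (hg s).imp fun n hn => ⟨hn.1, hn.2.1, ?_⟩⟩
    rw [← mul_apply_eq_comp, ← (hA n).eq, mul_apply_eq_comp, hp, zero_add]
    exact hb (mem_ball_iff_norm.2 (hk n hn.2.2))
  · have ep (j : ℕ) : (T ^ j) y = c ^ j • y := by
      induction j with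
      | zero => simp
      | succ j ih => rw [pow_succ', mul_apply_eq_comp, ih, map_smul, hy, smul_smul, pow_succ]
    have c0 : c ≠ 0 := norm_pos_iff.1 (hc ▸ one_pos)
    have : ‖e y‖ = 0 := small (C := ‖y‖ * 4) (norm_nonneg _) fun K => by
      have := h7 (Fin (4 ^ K)) univ (fun i => c⁻¹ ^ i.1) (fun i => i) K _ y (fun i => i.2) fun n => by
        rw [Fin.sum_univ_eq_sum_range fun i => c⁻¹ ^ i * u (n + i)]
        exact bound K _ (by simp [hc]) n
      simp only [ep, map_smul, smul_eq_mul, ← mul_assoc, ← mul_pow, inv_mul_cancel₀ c0] at this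
      simp only [one_pow, one_mul, sum_const, card_univ, Fintype.card_fin, nsmul_eq_mul, norm_mul,
        Nat.cast_pow, norm_pow, Nat.cast_ofNat, Complex.norm_ofNat] at this
      nlinarith [norm_nonneg y]
    exact h6 y fun j => by rw [ep, map_smul, norm_eq_zero.1 this, smul_zero]
  · have hz : ∀ U ∈ 𝓝 ((T ^ j) y), ∀ B : Set ℕ, B.Infinite →
        ∃ a ∈ B, ∃ b ∈ B, a < b ∧ (T ^ (b - a)) ((T ^ j) y) ∈ U := fun U hU B hB => by
      simpa only [comm j, Set.mem_preimage] using hy _ ((T ^ j).continuous.continuousAt hU) B hB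
    generalize (T ^ j) y = z at hz
    by_contra ne
    have pos := norm_pos_iff.2 ne
    have hball (ε) (hε : ε > 0) (B) (hB) := hz _ (Metric.ball_mem_nhds z hε) B hB
    simp only [mem_ball_iff_norm] at hball
    obtain ⟨δ, hδ, H⟩ := delta_diff T z hball (ε := ‖e z‖ / 2 / (‖e‖ + 1)) (by positivity)
    obtain ⟨g, hg⟩ := delta_synd (R := {n | ‖(T ^ n) z - z‖ < δ}) (hball δ hδ)
    choose a a1 a2 a3 using fun i => hg (i * g)
    have mono : StrictMono a := strictMono_nat_of_lt_succ fun i => by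
      have := a3 i; have := a2 (i + 1); linarith
    refine pos.ne' (small (C := 8 * ‖z‖ * (7 / 2) ^ g / (9 / 10) ^ g) pos.le fun K => ?_)
    have lt (i : Fin (4 ^ K)) : a (4 ^ K + i) < 4 ^ (K + g) := by
      have := a3 (4 ^ K + i)
      have g1 : 2 * g ≤ 4 ^ g := by
        have := g.lt_two_pow_self
        have : 0 < g := by have := a2 0; have := a3 0; omega
        have := Nat.pow_le_pow_right two_pos this
        rw [show 4 = 2 * 2 from rfl, mul_pow]
        nlinarith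
      have := i.2
      rw [pow_add]
      nlinarith
    have lt2 (i l : Fin (4 ^ K)) : a l < a (4 ^ K + i) := mono (by omega)
    have k := h7 (Fin (4 ^ K) × Fin (4 ^ K)) univ (fun _ => 1) (fun p => a (4 ^ K + p.1) - a p.2)
      (K + g) _ z (fun p => (Nat.sub_le _ _).trans_lt (lt _)) fun n => by
        simp only [one_mul, Fintype.sum_prod_type]
        exact bilinear (c := fun t => u (n + t)) (fun w hw => bound (K + g) w hw n)
          (fun i l e => Fin.ext (by simpa using mono.injective e))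
          (fun i l e => Fin.ext (mono.injective e)) (fun i l => (lt2 i l).le) lt
    have low : (4 : ℝ) ^ K * 4 ^ K * (‖e z‖ / 2) ≤ ‖∑ p : Fin (4 ^ K) × Fin (4 ^ K),
        1 * e ((T ^ (a (4 ^ K + p.1) - a p.2)) z)‖ := by
      have l1 := norm_sum_le_of_le (univ : Finset (Fin (4 ^ K) × Fin (4 ^ K)))
        (f := fun p => 1 * e ((T ^ (a (4 ^ K + p.1) - a p.2)) z) - e z) (n := fun _ => ‖e z‖ / 2)
        fun p _ => by
          have := H _ _ (lt2 p.1 p.2) (a1 _) (a1 _)
          rw [lt_div_iff₀ (by positivity)] at this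
          rw [one_mul, ← map_sub]
          refine (e.le_opNorm _).trans ?_
          nlinarith [norm_nonneg ((T ^ (a (4 ^ K + p.1) - a p.2)) z - z)]
      rw [sum_sub_distrib, norm_sub_rev] at l1
      have l2 := (norm_sub_norm_le _ _).trans l1
      simp only [sum_const, card_univ, Fintype.card_prod, Fintype.card_fin, nsmul_eq_mul, norm_mul,
        Nat.cast_pow, Nat.cast_mul, norm_pow, Nat.cast_ofNat, Complex.norm_ofNat] at l2
      linarith
    have k2 := (mul_le_mul_of_nonneg_left low (by positivity)).trans k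
    rw [div_mul_eq_mul_div, le_div_iff₀ (by positivity)]
    refine le_of_mul_le_mul_right ?_ (show (0 : ℝ) < 4 ^ K by positivity)
    rw [pow_add, pow_add] at k2
    push_cast at k2
    nlinarith [mul_nonneg (norm_nonneg z) (show (0 : ℝ) ≤ 4 ^ K by positivity)]

end Pool.Agent.H.MP_28bf97_an
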